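import Mathlib
import Pool.Agent.TH775.AC.Stmts

set_option autoImplicit false

open Complex Metric Set Filter Topology

namespace Pool.Agent.TH775.AC

theorem quot_of (hJ : S_JACK) : S_QUOT := by
  intro A B hA hB hA0 hne hk z1 hz1
  by_contra hcon
  push Not at hcon
  have hcl : closedBall (0 : ℂ) ‖z1‖ ⊆ ball 0 1 :=
    closedBall_subset_ball (mem_ball_zero_iff.1 hz1)
  have hAc : ContinuousOn (fun z => ‖A z‖) (closedBall (0 : ℂ) ‖z1‖) :=
    (hA.continuousOn.mono hcl).norm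
  have hBc : ContinuousOn (fun z => ‖B z‖) (closedBall (0 : ℂ) ‖z1‖) :=
    (hB.continuousOn.mono hcl).norm
  have hT : IsCompact (closedBall (0 : ℂ) ‖z1‖ ∩ {z | ‖B z‖ ≤ ‖A z‖}) := by
    have h1 : IsClosed (closedBall (0 : ℂ) ‖z1‖ ∩ (fun z => ‖A z‖ - ‖B z‖) ⁻¹' (Set.Ici 0)) :=
      (hAc.sub hBc).preimage_isClosed_of_isClosed isClosed_closedBall isClosed_Ici
    have h2 : closedBall (0 : ℂ) ‖z1‖ ∩ {z | ‖B z‖ ≤ ‖A z‖} =
        closedBall (0 : ℂ) ‖z1‖ ∩ (fun z => ‖A z‖ - ‖B z‖) ⁻¹' (Set.Ici 0) := by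
      ext z
      simp only [Set.mem_inter_iff, Set.mem_setOf_eq, Set.mem_preimage, Set.mem_Ici, sub_nonneg]
    rw [h2]
    exact (isCompact_closedBall (0 : ℂ) ‖z1‖).of_isClosed_subset h1 Set.inter_subset_left
  obtain ⟨z0, ⟨hz0b, hz0T⟩, hmin⟩ := hT.exists_isMinOn ⟨z1, by simp, hcon⟩
    (continuous_norm.continuousOn (s := closedBall (0 : ℂ) ‖z1‖ ∩ {z | ‖B z‖ ≤ ‖A z‖}))
  have hz0T' : ‖B z0‖ ≤ ‖A z0‖ := hz0T
  have hz0 : z0 ∈ ball (0 : ℂ) 1 := hcl hz0b
  have hz0n : z0 ≠ 0 := by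
    rintro rfl
    rw [hA0, norm_zero] at hz0T'
    have h3 : B 0 = 0 := norm_le_zero_iff.1 hz0T'
    exact hne 0 (mem_ball_self one_pos) ⟨hA0, h3⟩
  have hpos : 0 < ‖z0‖ := norm_pos_iff.2 hz0n
  have hsub : closedBall (0 : ℂ) ‖z0‖ ⊆ ball 0 1 :=
    closedBall_subset_ball (mem_ball_zero_iff.1 hz0)
  have hz01 : ‖z0‖ ≤ ‖z1‖ := mem_closedBall_zero_iff.1 hz0b
  have hlt : ∀ z : ℂ, ‖z‖ < ‖z0‖ → ‖A z‖ < ‖B z‖ := by
    intro z hz
    by_contra h
    push Not at h
    have h3 : ‖z0‖ ≤ ‖z‖ := hmin (⟨mem_closedBall_zero_iff.2 (hz.le.trans hz01), h⟩ :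
      z ∈ closedBall (0 : ℂ) ‖z1‖ ∩ {z | ‖B z‖ ≤ ‖A z‖})
    linarith
  have hle : ∀ z ∈ closedBall (0 : ℂ) ‖z0‖, ‖A z‖ ≤ ‖B z‖ := by
    intro z hz
    have hzb : z ∈ ball (0 : ℂ) 1 := hsub hz
    have hz' := mem_closedBall_zero_iff.1 hz
    have hcA : ContinuousAt A z := (hA.differentiableAt (isOpen_ball.mem_nhds hzb)).continuousAt
    have hcB : ContinuousAt B z := (hB.differentiableAt (isOpen_ball.mem_nhds hzb)).continuousAt
    have hpath : Tendsto (fun t : ℝ => (t : ℂ) * z) (𝓝[<] 1) (𝓝 z) := by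
      have : ContinuousAt (fun t : ℝ => (t : ℂ) * z) 1 := by fun_prop
      have h3 := this.tendsto
      simp only [ofReal_one, one_mul] at h3
      exact h3.mono_left nhdsWithin_le_nhds
    refine le_of_tendsto_of_tendsto (hcA.tendsto.comp hpath).norm (hcB.tendsto.comp hpath).norm ?_
    filter_upwards [Ioo_mem_nhdsLT (show (0 : ℝ) < 1 by norm_num)] with t ht
    refine (hlt _ ?_).le
    rw [norm_mul, Complex.norm_real, Real.norm_eq_abs, abs_of_pos ht.1]
    calc t * ‖z‖ ≤ t * ‖z0‖ := mul_le_mul_of_nonneg_left hz' ht.1.le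
      _ < 1 * ‖z0‖ := mul_lt_mul_of_pos_right ht.2 hpos
      _ = ‖z0‖ := one_mul _
  have heq : ‖A z0‖ = ‖B z0‖ := le_antisymm (hle z0 (by simp)) hz0T'
  have hB0 : ∀ z ∈ closedBall (0 : ℂ) ‖z0‖, B z ≠ 0 := by
    intro z hz h
    have h3 := hle z hz
    rw [h, norm_zero] at h3
    exact hne z (hsub hz) ⟨norm_le_zero_iff.1 h3, h⟩
  have hdA : ∀ z ∈ closedBall (0 : ℂ) ‖z0‖, DifferentiableAt ℂ A z := fun z hz =>
    hA.differentiableAt (isOpen_ball.mem_nhds (hsub hz))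
  have hdB : ∀ z ∈ closedBall (0 : ℂ) ‖z0‖, DifferentiableAt ℂ B z := fun z hz =>
    hB.differentiableAt (isOpen_ball.mem_nhds (hsub hz))
  have hz0c : z0 ∈ closedBall (0 : ℂ) ‖z0‖ := by simp
  have hBz0 : B z0 ≠ 0 := hB0 z0 hz0c
  have hAz0 : A z0 ≠ 0 := by
    rw [← norm_ne_zero_iff, heq]
    exact norm_ne_zero_iff.2 hBz0
  have hnorm1 : ‖A z0 / B z0‖ = 1 := by
    rw [norm_div, heq, div_self (norm_ne_zero_iff.2 hBz0)]
  obtain ⟨k, hk1, hk2⟩ := hJ (fun z => A z / B z) z0 hz0n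
    (fun z hz => (hdA z hz).fun_div (hdB z hz) (hB0 z hz)) (by simp [hA0])
    (div_ne_zero hAz0 hBz0) (by
      intro z hz
      show ‖A z / B z‖ ≤ ‖A z0 / B z0‖
      rw [hnorm1, norm_div]
      exact div_le_one_of_le₀ (hle z hz) (norm_nonneg _))
  have hder : deriv (fun z => A z / B z) z0 =
      (deriv A z0 * B z0 - A z0 * deriv B z0) / B z0 ^ 2 :=
    ((hdA z0 hz0c).hasDerivAt.fun_div (hdB z0 hz0c).hasDerivAt hBz0).deriv
  refine hk z0 hz0 hz0n heq k hk1 ?_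
  rw [hder] at hk2
  field_simp at hk2
  linear_combination hk2

theorem hp_of (hQ : S_QUOT) : S_HP := by
  intro q a ha hq hq0 hk z hz
  have ha' : (a : ℂ) ≠ 0 := by exact_mod_cast ha.ne'
  have hkey : ∀ w : ℂ, ‖w - a‖ ^ 2 - ‖w + a‖ ^ 2 = -(4 * a * w.re) := by
    intro w
    rw [← Complex.normSq_eq_norm_sq, ← Complex.normSq_eq_norm_sq]
    simp only [Complex.normSq_apply, sub_re, sub_im, add_re, add_im, ofReal_re, ofReal_im]
    ring
  have h1 := hQ (fun z => q z - a) (fun z => q z + a) (hq.fun_sub (differentiableOn_const _))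
    (hq.fun_add (differentiableOn_const _)) (by simp [hq0]) (by
      rintro w hw ⟨h1, h2⟩
      have h3 : (2 : ℂ) * a = 0 := by linear_combination h2 - h1
      have := mul_ne_zero two_ne_zero ha'
      exact this h3) (by
      intro w hw hw0 heq k hk1 hk2
      have h4 := hkey (q w)
      have heq' : ‖q w - a‖ = ‖q w + a‖ := heq
      rw [heq', sub_self] at h4
      have h5 : (q w).re = 0 := by
        have : 4 * a * (q w).re = 0 := by linarith
        rcases mul_eq_zero.1 this with h | h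
        · have : a = 0 := by linarith
          exact absurd this ha.ne'
        · exact h
      have hd := hq.differentiableAt (isOpen_ball.mem_nhds hw)
      have d1 : deriv (fun z => q z - (a : ℂ)) w = deriv q w := by
        rw [deriv_sub_const]
      have d2 : deriv (fun z => q z + (a : ℂ)) w = deriv q w := by
        rw [deriv_add_const]
      rw [d1, d2] at hk2
      refine hk w hw hw0 h5 k hk1 ?_
      have h6 : q w = ((q w).im : ℂ) * I := by
        apply Complex.ext <;> simp [h5]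
      have h7 : (q w) ^ 2 = -(((q w).im : ℂ) ^ 2) := by
        conv_lhs => rw [h6]
        rw [mul_pow, I_sq]
        ring
      have h8 : w * deriv q w * (2 * a) = -(k * (a ^ 2 + ((q w).im : ℂ) ^ 2)) := by
        have h9 : (k : ℂ) * ((q w - a) * (q w + a)) = k * ((q w) ^ 2 - a ^ 2) := by ring
        rw [h9, h7] at hk2
        linear_combination hk2
      push_cast
      rw [← neg_div, eq_div_iff (mul_ne_zero two_ne_zero ha')]
      exact h8) z hz
  have h2 := hkey (q z)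
  have h3 : ‖q z - a‖ ^ 2 < ‖q z + a‖ ^ 2 := by
    have : ‖q z - a‖ < ‖q z + a‖ := h1
    exact pow_lt_pow_left₀ this (norm_nonneg _) two_ne_zero
  have h4 : 0 < 4 * a * (q z).re := by linarith
  have h5 : 0 < 4 * a := by linarith
  exact (mul_pos_iff_of_pos_left h5).1 h4

end Pool.Agent.TH775.AC
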