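import Mathlib
import Pool.Agent.TH775.AC.Stmts

/-!
# Second variation: series level facts
-/

set_option autoImplicit false

open Complex Metric Set PowerSeries
open scoped BigOperators

namespace Pool.Agent.TH242.AC2

open Pool.Agent.TH775.AC
open Pool.Agent.H713R2

theorem coeff_eq_of_dvd {A B : ℂ⟦X⟧} {M n : ℕ} (h : (PowerSeries.X : ℂ⟦X⟧) ^ M ∣ A - B)
    (hn : n < M) : PowerSeries.coeff n A = PowerSeries.coeff n B := by
  have := (PowerSeries.X_pow_dvd_iff.1 h) n hn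
  rw [map_sub, sub_eq_zero] at this
  exact this

theorem dvd_mul_congr {A B C' D : ℂ⟦X⟧} {M : ℕ} (h : (PowerSeries.X : ℂ⟦X⟧) ^ M ∣ A - B)
    (h' : (PowerSeries.X : ℂ⟦X⟧) ^ M ∣ C' - D) : (PowerSeries.X : ℂ⟦X⟧) ^ M ∣ A * C' - B * D := by
  have : A * C' - B * D = (A - B) * C' + B * (C' - D) := by ring
  rw [this]
  exact dvd_add (h.mul_right _) (h'.mul_left _)

theorem dvd_pow_congr {A B : ℂ⟦X⟧} {M : ℕ} (h : (PowerSeries.X : ℂ⟦X⟧) ^ M ∣ A - B) (k : ℕ) :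
    (PowerSeries.X : ℂ⟦X⟧) ^ M ∣ A ^ k - B ^ k :=
  h.trans (sub_dvd_pow_sub_pow A B k)

theorem dvd_sum_congr {M m : ℕ} {a : ℕ → ℂ} {A B : ℕ → ℂ⟦X⟧}
    (h : ∀ k, (PowerSeries.X : ℂ⟦X⟧) ^ M ∣ A k - B k) :
    (PowerSeries.X : ℂ⟦X⟧) ^ M ∣ ∑ k ∈ Finset.range m, PowerSeries.C (a k) * A k -
      ∑ k ∈ Finset.range m, PowerSeries.C (a k) * B k := by
  rw [← Finset.sum_sub_distrib]
  refine Finset.dvd_sum fun k _ => ?_
  rw [← mul_sub]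
  exact (h k).mul_left _

theorem coeff_GS {N : ℕ} (c : Fin N → ℂ) (i : ℕ) : PowerSeries.coeff i (GS c) =
    if h : 1 ≤ i ∧ i ≤ N then c ⟨i - 1, by omega⟩ else 0 := by
  unfold GS
  rw [PowerSeries.coeff_mk]

theorem coeff_GS_zero {N : ℕ} (c : Fin N → ℂ) : PowerSeries.coeff 0 (GS c) = 0 := by
  rw [coeff_GS]
  simp

theorem coeff_GS_succ {N : ℕ} (c : Fin N → ℂ) (j : Fin N) :
    PowerSeries.coeff ((j : ℕ) + 1) (GS c) = c j := by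
  rw [coeff_GS, dif_pos ⟨by omega, by have := j.2; omega⟩]
  congr 1

theorem coeff_TS (f : ℂ → ℂ) (i : ℕ) : PowerSeries.coeff i (TS f) = tc f i := by
  unfold TS
  rw [PowerSeries.coeff_mk]

theorem X_dvd_GS {N : ℕ} (c : Fin N → ℂ) : (PowerSeries.X : ℂ⟦X⟧) ∣ GS c := by
  rw [PowerSeries.X_dvd_iff, ← PowerSeries.coeff_zero_eq_constantCoeff_apply]
  exact coeff_GS_zero c

theorem GS_add {N : ℕ} (c d : Fin N → ℂ) : GS (c + d) = GS c + GS d := by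
  ext i
  rw [map_add, coeff_GS, coeff_GS, coeff_GS]
  by_cases h : 1 ≤ i ∧ i ≤ N
  · rw [dif_pos h, dif_pos h, dif_pos h]; rfl
  · rw [dif_neg h, dif_neg h, dif_neg h, add_zero]

theorem GS_smul {N : ℕ} (t : ℂ) (c : Fin N → ℂ) :
    GS (t • c) = PowerSeries.C t * GS c := by
  ext i
  rw [PowerSeries.coeff_C_mul, coeff_GS, coeff_GS]
  by_cases h : 1 ≤ i ∧ i ≤ N
  · rw [dif_pos h, dif_pos h]; rfl
  · rw [dif_neg h, dif_neg h, mul_zero]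

/-- the jet of a function -/
noncomputable def jet (N : ℕ) (f : ℂ → ℂ) : Fin N → ℂ := fun j => tc f ((j : ℕ) + 1)

theorem TS_GS {N : ℕ} {f : ℂ → ℂ} (h0 : f 0 = 0) :
    (PowerSeries.X : ℂ⟦X⟧) ^ (N + 1) ∣ TS f - GS (jet N f) := by
  rw [PowerSeries.X_pow_dvd_iff]
  intro m hm
  rw [map_sub, coeff_TS, coeff_GS]
  rcases Nat.eq_zero_or_pos m with rfl | hm0
  · rw [tc_zero, h0]; simp
  · rw [dif_pos ⟨hm0, by omega⟩]
    unfold jet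
    simp only [Nat.sub_add_cancel hm0, sub_self]

theorem TS_mul {f g : ℂ → ℂ} (hf : DifferentiableOn ℂ f (ball 0 1))
    (hg : DifferentiableOn ℂ g (ball 0 1)) : TS (fun z => f z * g z) = TS f * TS g := by
  ext i
  rw [coeff_TS, tc_mul one_pos hf hg, PowerSeries.coeff_mul]
  refine Finset.sum_congr rfl fun p _ => ?_
  rw [coeff_TS, coeff_TS]

theorem tc_congr_ball {f g : ℂ → ℂ} {R : ℝ} (hR : 0 < R) (h : ∀ z ∈ ball (0 : ℂ) R, f z = g z)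
    (n : ℕ) : tc f n = tc g n := by
  unfold tc
  congr 1
  have : f =ᶠ[nhds 0] g := Filter.eventuallyEq_iff_exists_mem.2 ⟨_, ball_mem_nhds _ hR, h⟩
  exact this.iteratedDeriv_eq n

/-- value of the functional -/
theorem LF_eq (hComp : S_COMP) {Φ s : ℂ → ℂ} {N : ℕ} (hΦ : AnalyticAt ℂ Φ 0)
    (hs : DifferentiableOn ℂ s (ball 0 1)) (hs0 : s 0 = 0) :
    LF (tc Φ) N (GS (jet N s)) = tc (fun z => Φ (s z)) N := by
  have h1 := hComp Φ s 1 (N + 1) one_pos hΦ hs hs0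
  have h2 := coeff_eq_of_dvd h1 (Nat.lt_succ_self N)
  rw [coeff_TS] at h2
  rw [h2]
  have h3 : (PowerSeries.X : ℂ⟦X⟧) ^ (N + 1) ∣
      ∑ k ∈ Finset.range (N + 1), PowerSeries.C (tc Φ k) * TS s ^ k -
      ∑ k ∈ Finset.range (N + 1), PowerSeries.C (tc Φ k) * GS (jet N s) ^ k :=
    dvd_sum_congr fun k => dvd_pow_congr (TS_GS hs0) k
  rw [coeff_eq_of_dvd h3 (Nat.lt_succ_self N)]
  unfold LF
  rw [map_sum]
  refine Finset.sum_congr rfl fun k _ => ?_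
  rw [PowerSeries.coeff_C_mul]

/-- the first derivative -/
theorem D1_eq (hComp : S_COMP) {Φ Φ₁ s : ℂ → ℂ} {N : ℕ} (hΦ : AnalyticAt ℂ Φ₁ 0)
    (hs : DifferentiableOn ℂ s (ball 0 1)) (hs0 : s 0 = 0)
    (h1 : ∀ k, tc Φ₁ k = (k + 1) * tc Φ (k + 1)) (B : ℂ⟦X⟧) (hB : (PowerSeries.X : ℂ⟦X⟧) ∣ B) :
    ∑ k ∈ Finset.range (N + 1), tc Φ k *
      PowerSeries.coeff N ((k : ℂ⟦X⟧) * GS (jet N s) ^ (k - 1) * B) =
    PowerSeries.coeff N (TS (fun z => Φ₁ (s z)) * B) := by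
  have e1 := hComp Φ₁ s 1 N one_pos hΦ hs hs0
  have e2 : (PowerSeries.X : ℂ⟦X⟧) ^ N ∣
      ∑ k ∈ Finset.range N, PowerSeries.C (tc Φ₁ k) * TS s ^ k -
      ∑ k ∈ Finset.range N, PowerSeries.C (tc Φ₁ k) * GS (jet N s) ^ k :=
    dvd_sum_congr fun k => dvd_pow_congr ((pow_dvd_pow _ (Nat.le_succ N)).trans (TS_GS hs0)) k
  have e3 := dvd_add e1 e2
  rw [sub_add_sub_cancel] at e3
  have e4 : (PowerSeries.X : ℂ⟦X⟧) ^ (N + 1) ∣ TS (fun z => Φ₁ (s z)) * B -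
      (∑ k ∈ Finset.range N, PowerSeries.C (tc Φ₁ k) * GS (jet N s) ^ k) * B := by
    rw [← sub_mul, pow_succ]
    exact mul_dvd_mul e3 hB
  rw [coeff_eq_of_dvd e4 (Nat.lt_succ_self N), Finset.sum_range_succ', Finset.sum_mul, map_sum]
  simp only [Nat.cast_zero, zero_mul, map_zero, mul_zero, add_zero]
  refine Finset.sum_congr rfl fun k _ => ?_
  rw [h1 k, mul_assoc, mul_assoc, PowerSeries.coeff_C_mul, Nat.add_sub_cancel]
  have : ((k + 1 : ℕ) : ℂ⟦X⟧) = PowerSeries.C ((k : ℂ) + 1) := by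
    push_cast
    simp
  rw [this, PowerSeries.coeff_C_mul]
  ring

/-- the second derivative -/
theorem D2_eq (hComp : S_COMP) {Φ Φ₁ Φ₂ s : ℂ → ℂ} {n : ℕ} (hΦ : AnalyticAt ℂ Φ₂ 0)
    (hs : DifferentiableOn ℂ s (ball 0 1)) (hs0 : s 0 = 0)
    (h1 : ∀ k, tc Φ₁ k = (k + 1) * tc Φ (k + 1))
    (h2 : ∀ k, tc Φ₂ k = (k + 1) * tc Φ₁ (k + 1))
    (B : ℂ⟦X⟧) (hB : (PowerSeries.X : ℂ⟦X⟧) ∣ B) :
    ∑ k ∈ Finset.range (n + 1 + 1), tc Φ k *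
      PowerSeries.coeff (n + 1) ((k : ℂ⟦X⟧) * ((k - 1 : ℕ) : ℂ⟦X⟧) *
        GS (jet (n + 1) s) ^ (k - 2) * B ^ 2) =
    PowerSeries.coeff (n + 1) (TS (fun z => Φ₂ (s z)) * B ^ 2) := by
  have e1 := hComp Φ₂ s 1 n one_pos hΦ hs hs0
  have e2 : (PowerSeries.X : ℂ⟦X⟧) ^ n ∣
      ∑ k ∈ Finset.range n, PowerSeries.C (tc Φ₂ k) * TS s ^ k -
      ∑ k ∈ Finset.range n, PowerSeries.C (tc Φ₂ k) * GS (jet (n + 1) s) ^ k :=
    dvd_sum_congr fun k => dvd_pow_congr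
      ((pow_dvd_pow _ (show n ≤ n + 1 + 1 by omega)).trans (TS_GS hs0)) k
  have e3 := dvd_add e1 e2
  rw [sub_add_sub_cancel] at e3
  have e4 : (PowerSeries.X : ℂ⟦X⟧) ^ (n + 1 + 1) ∣ TS (fun z => Φ₂ (s z)) * B ^ 2 -
      (∑ k ∈ Finset.range n, PowerSeries.C (tc Φ₂ k) * GS (jet (n + 1) s) ^ k) * B ^ 2 := by
    rw [← sub_mul, show n + 1 + 1 = n + 2 by rfl, pow_add]
    exact mul_dvd_mul e3 (pow_dvd_pow_of_dvd hB 2)
  rw [coeff_eq_of_dvd e4 (Nat.lt_succ_self (n + 1)), Finset.sum_range_succ',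
    Finset.sum_range_succ', Finset.sum_mul, map_sum]
  simp only [Nat.cast_zero, zero_mul, map_zero, mul_zero, add_zero, zero_add, Nat.sub_self]
  refine Finset.sum_congr rfl fun k _ => ?_
  rw [h2 k, h1 (k + 1)]
  have a1 : ((k + 1 + 1 : ℕ) : ℂ⟦X⟧) * ((k + 1 + 1 - 1 : ℕ) : ℂ⟦X⟧) =
      PowerSeries.C (((k : ℂ) + 1 + 1) * ((k : ℂ) + 1)) := by
    rw [Nat.add_sub_cancel]
    push_cast
    simp
  rw [a1, show k + 1 + 1 - 2 = k by omega, mul_assoc, mul_assoc, PowerSeries.coeff_C_mul,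
    PowerSeries.coeff_C_mul]
  push_cast
  ring

end Pool.Agent.TH242.AC2
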