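import Mathlib
import Pool.Agent.TH242.AC2.V1

/-!
# Second variation: function level facts
-/

set_option autoImplicit false

open Complex Metric Set
open scoped BigOperators

namespace Pool.Agent.TH242.AC2

open Pool.Agent.TH775.AC
open Pool.Agent.H713R2

/-- `1/(1 - x z)` -/
noncomputable def hk (x z : ℂ) : ℂ := 1 / (1 - x * z)

theorem hk_norm {x z : ℂ} (hx : ‖x‖ = 1) (hz : z ∈ ball (0 : ℂ) 1) : ‖x * z‖ < 1 := by
  rw [norm_mul, hx, one_mul]
  exact mem_ball_zero_iff.1 hz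

theorem hk_ne {x z : ℂ} (hx : ‖x‖ = 1) (hz : z ∈ ball (0 : ℂ) 1) : 1 - x * z ≠ 0 := by
  intro h
  have h1 := hk_norm hx hz
  rw [← sub_eq_zero.1 h] at h1
  simp at h1

theorem hk_diff {x : ℂ} (hx : ‖x‖ = 1) : DifferentiableOn ℂ (hk x) (ball 0 1) := by
  intro z hz
  have h := hk_ne hx hz
  have h2 : DifferentiableAt ℂ (fun z => 1 - x * z) z := by fun_prop
  have h3 : DifferentiableAt ℂ (fun z => 1 / (1 - x * z)) z :=
    (differentiableAt_const (1 : ℂ)).fun_div h2 h
  exact h3.differentiableWithinAt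

theorem re_gt_half {u : ℂ} (hu : ‖u‖ < 1) : 1 / 2 < (1 / (1 - u)).re := by
  have h1 : (1 : ℂ) - u ≠ 0 := by
    intro h
    rw [← sub_eq_zero.1 h] at hu
    simp at hu
  have h2 : 0 < Complex.normSq (1 - u) := Complex.normSq_pos.2 h1
  rw [one_div (1 - u), Complex.inv_re, lt_div_iff₀ h2]
  have h3 : Complex.normSq u < 1 := by
    rw [Complex.normSq_eq_norm_sq]
    nlinarith [norm_nonneg u]
  simp only [Complex.normSq_apply, Complex.sub_re, Complex.sub_im, Complex.one_re,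
    Complex.one_im] at h3 ⊢
  nlinarith

theorem hk_re {x z : ℂ} (hx : ‖x‖ = 1) (hz : z ∈ ball (0 : ℂ) 1) : 1 / 2 < (hk x z).re :=
  re_gt_half (hk_norm hx hz)

theorem hk_zero (x : ℂ) : hk x 0 = 1 := by simp [hk]

theorem hk_hasSum {x z : ℂ} (hx : ‖x‖ = 1) (hz : z ∈ ball (0 : ℂ) 1) :
    HasSum (fun k => x ^ k * z ^ k) (hk x z) := by
  have := hasSum_geometric_of_norm_lt_one (hk_norm hx hz)
  simp only [mul_pow] at this
  simpa [hk] using this

theorem tc_hk {x : ℂ} (hx : ‖x‖ = 1) (n : ℕ) : tc (hk x) n = x ^ n := by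
  have := tc_unique (a := fun n => x ^ n) one_pos (hk_diff hx) (by
    filter_upwards [ball_mem_nhds (0 : ℂ) one_pos] with z hz
    exact hk_hasSum hx hz)
  rw [← this]

theorem tc_add {f g : ℂ → ℂ} (hf : DifferentiableOn ℂ f (ball 0 1))
    (hg : DifferentiableOn ℂ g (ball 0 1)) (n : ℕ) :
    tc (fun z => f z + g z) n = tc f n + tc g n := by
  have := tc_unique (a := fun n => tc f n + tc g n) one_pos (hf.add hg) (by
    filter_upwards [ball_mem_nhds (0 : ℂ) one_pos] with z hz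
    have h := (hasSum_tc hf hz).add (hasSum_tc hg hz)
    simpa only [add_mul, Pi.add_apply] using h)
  exact (congrFun this n).symm

theorem tc_const_mul {f : ℂ → ℂ} (a : ℂ) (hf : DifferentiableOn ℂ f (ball 0 1)) (n : ℕ) :
    tc (fun z => a * f z) n = a * tc f n := by
  have := tc_unique (a := fun n => a * tc f n) (F := fun z => a * f z) one_pos
    (hf.const_mul a) (by
    filter_upwards [ball_mem_nhds (0 : ℂ) one_pos] with z hz
    have h := (hasSum_tc hf hz).mul_left a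
    simpa only [mul_assoc] using h)
  exact (congrFun this n).symm

theorem tc_sub {f g : ℂ → ℂ} (hf : DifferentiableOn ℂ f (ball 0 1))
    (hg : DifferentiableOn ℂ g (ball 0 1)) (n : ℕ) :
    tc (fun z => f z - g z) n = tc f n - tc g n := by
  have h1 := tc_add hf (hg.const_mul (-1)) n
  rw [tc_const_mul (-1) hg n] at h1
  rw [show (fun z => f z - g z) = fun z => f z + -1 * g z by funext z; ring, h1]
  ring

theorem tc_const_succ (a : ℂ) (n : ℕ) : tc (fun _ => a) (n + 1) = 0 := by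
  unfold tc
  rw [iteratedDeriv_const]
  simp

theorem tc_sum {ι : Type*} (t : Finset ι) {f : ι → ℂ → ℂ}
    (hf : ∀ i, DifferentiableOn ℂ (f i) (ball 0 1)) (n : ℕ) :
    tc (fun z => ∑ i ∈ t, f i z) n = ∑ i ∈ t, tc (f i) n := by
  have := tc_unique (a := fun n => ∑ i ∈ t, tc (f i) n) (F := fun z => ∑ i ∈ t, f i z) one_pos
    (DifferentiableOn.fun_sum fun i _ => hf i) (by
    filter_upwards [ball_mem_nhds (0 : ℂ) one_pos] with z hz
    have h := hasSum_sum (f := fun i k => tc (f i) k * z ^ k) (a := fun i => f i z) (s := t)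
      (fun i _ => hasSum_tc (hf i) hz)
    simpa only [Finset.sum_mul] using h)
  exact (congrFun this n).symm

theorem tc_dil {K : ℂ → ℂ} (hK : DifferentiableOn ℂ K (ball 0 1)) {x : ℂ} (hx : ‖x‖ = 1)
    (n : ℕ) : tc (fun z => K (x * z)) n = x ^ n * tc K n := by
  have hd : DifferentiableOn ℂ (fun z => K (x * z)) (ball 0 1) := by
    refine hK.comp (by fun_prop) ?_
    intro z hz
    exact mem_ball_zero_iff.2 (hk_norm hx hz)
  have := tc_unique (a := fun n => x ^ n * tc K n) one_pos hd (by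
    filter_upwards [ball_mem_nhds (0 : ℂ) one_pos] with z hz
    have h := hasSum_tc hK (mem_ball_zero_iff.2 (hk_norm hx hz))
    simp only [mul_pow] at h
    convert h using 2
    ring)
  exact (congrFun this n).symm

section conv

variable {ι : Type*} [Fintype ι] {w : ι → ℝ} {x : ι → ℂ}

/-- the convex combination -/
noncomputable def g0 (w : ι → ℝ) (x : ι → ℂ) (z : ℂ) : ℂ := ∑ i, (w i : ℂ) * hk (x i) z

theorem g0_diff (hx : ∀ i, ‖x i‖ = 1) : DifferentiableOn ℂ (g0 w x) (ball 0 1) := by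
  unfold g0
  exact DifferentiableOn.fun_sum fun i _ => (hk_diff (hx i)).const_mul _

theorem g0_zero (hs : ∑ i, w i = 1) : g0 w x 0 = 1 := by
  unfold g0
  simp only [hk_zero, mul_one]
  rw [← Complex.ofReal_sum, hs, Complex.ofReal_one]

theorem g0_re_eq (z : ℂ) (hs : ∑ i, w i = 1) :
    (g0 w x z).re - 1 / 2 = ∑ i, w i * ((hk (x i) z).re - 1 / 2) := by
  unfold g0
  rw [Complex.re_sum]
  simp only [Complex.re_ofReal_mul, mul_sub, Finset.sum_sub_distrib]
  rw [← Finset.sum_mul, hs]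
  ring

theorem g0_re (hw : ∀ i, 0 ≤ w i) (hs : ∑ i, w i = 1) (hx : ∀ i, ‖x i‖ = 1) {z : ℂ}
    (hz : z ∈ ball (0 : ℂ) 1) : 1 / 2 < (g0 w x z).re := by
  have h1 := g0_re_eq (w := w) (x := x) z hs
  have h2 : 0 < ∑ i, w i * ((hk (x i) z).re - 1 / 2) := by
    have h3 : ∃ i, 0 < w i := by
      by_contra hcon
      push Not at hcon
      have : ∑ i, w i ≤ 0 := Finset.sum_nonpos fun i _ => hcon i
      rw [hs] at this
      norm_num at this
    obtain ⟨i, hi⟩ := h3
    refine Finset.sum_pos' (fun j _ => mul_nonneg (hw j) ?_) ⟨i, Finset.mem_univ i, ?_⟩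
    · linarith [hk_re (hx j) hz]
    · exact mul_pos hi (by linarith [hk_re (hx i) hz])
  linarith

/-- the Schwarz function -/
noncomputable def om (w : ι → ℝ) (x : ι → ℂ) (z : ℂ) : ℂ := 1 - 1 / g0 w x z

theorem norm_one_sub_inv {g : ℂ} (hg : 1 / 2 < g.re) : ‖1 - 1 / g‖ < 1 := by
  have h0 : g ≠ 0 := by
    rintro rfl
    norm_num at hg
  have h1 : (1 : ℂ) - 1 / g = (g - 1) / g := by field_simp
  rw [h1, norm_div, div_lt_one (norm_pos_iff.2 h0)]
  have h2 : ‖g - 1‖ ^ 2 < ‖g‖ ^ 2 := by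
    rw [← Complex.normSq_eq_norm_sq, ← Complex.normSq_eq_norm_sq]
    simp only [Complex.normSq_apply, Complex.sub_re, Complex.sub_im, Complex.one_re,
      Complex.one_im]
    nlinarith
  exact lt_of_pow_lt_pow_left₀ 2 (norm_nonneg _) h2

theorem om_mem (hw : ∀ i, 0 ≤ w i) (hs : ∑ i, w i = 1) (hx : ∀ i, ‖x i‖ = 1) {z : ℂ}
    (hz : z ∈ ball (0 : ℂ) 1) : om w x z ∈ ball (0 : ℂ) 1 :=
  mem_ball_zero_iff.2 (norm_one_sub_inv (g0_re hw hs hx hz))

theorem om_diff (hw : ∀ i, 0 ≤ w i) (hs : ∑ i, w i = 1) (hx : ∀ i, ‖x i‖ = 1) :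
    DifferentiableOn ℂ (om w x) (ball 0 1) := by
  unfold om
  refine (differentiableOn_const 1).sub ((differentiableOn_const 1).div (g0_diff hx) ?_)
  intro z hz h
  have := g0_re hw hs hx hz
  rw [h] at this
  norm_num at this

theorem one_div_one_sub_om (hw : ∀ i, 0 ≤ w i) (hs : ∑ i, w i = 1) (hx : ∀ i, ‖x i‖ = 1)
    {z : ℂ} (hz : z ∈ ball (0 : ℂ) 1) : 1 / (1 - om w x z) = g0 w x z := by
  have h : g0 w x z ≠ 0 := by
    intro h
    have := g0_re hw hs hx hz
    rw [h] at this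
    norm_num at this
  unfold om
  field_simp
  ring

theorem jet_g0 (hx : ∀ i, ‖x i‖ = 1) (N : ℕ) :
    jet N (fun z => g0 w x z - 1) = ∑ i, w i • gam N (x i) := by
  funext j
  unfold jet
  rw [tc_sub (g0_diff hx) (differentiableOn_const 1), tc_const_succ, sub_zero]
  unfold g0
  rw [tc_sum Finset.univ fun i => (hk_diff (hx i)).const_mul _]
  rw [Finset.sum_apply]
  refine Finset.sum_congr rfl fun i _ => ?_
  rw [tc_const_mul _ (hk_diff (hx i)), tc_hk (hx i), Pi.smul_apply, Complex.real_smul]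
  rfl

/-- the function `q` -/
noncomputable def qf (lam : ℝ) (w : ι → ℝ) (x : ι → ℂ) (κ : ℂ → ℂ) (i j : ι) (z : ℂ) : ℂ :=
  ((lam / w i : ℝ) : ℂ) * hk (x i) z + ((lam / w j : ℝ) : ℂ) * hk (x j) z -
    (lam : ℂ) * (κ (om w x z) * (hk (x i) z - hk (x j) z) ^ 2)

theorem qf_re (hAlg : S_ALG) {lam : ℝ} (hlam : 0 < lam) {κ : ℂ → ℂ}
    (hκ : ∀ z ∈ ball (0 : ℂ) 1, ((1 / (1 - z)).re - 1 / 2) * ‖κ z‖ ^ 2 ≤ (κ z).re)
    (hw : ∀ i, 0 < w i) (hs : ∑ i, w i = 1) (hx : ∀ i, ‖x i‖ = 1) {i j : ι} (hij : i ≠ j)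
    {z : ℂ} (hz : z ∈ ball (0 : ℂ) 1) :
    (lam / w i + lam / w j) / 2 ≤ (qf lam w x κ i j z).re := by
  classical
  have hw' : ∀ i, 0 ≤ w i := fun i => (hw i).le
  have hr : ∀ k, 1 / 2 < (hk (x k) z).re := fun k => hk_re (hx k) hz
  have hi := hw i
  have hj := hw j
  by_cases h0 : κ (om w x z) = 0
  · unfold qf
    rw [h0]
    simp only [zero_mul, mul_zero, sub_zero, Complex.add_re, Complex.re_ofReal_mul]
    have h1 : 0 < lam / w i := div_pos hlam hi
    have h2 : 0 < lam / w j := div_pos hlam hj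
    nlinarith [hr i, hr j]
  · have h1 := hκ _ (om_mem hw' hs hx hz)
    rw [one_div_one_sub_om hw' hs hx hz] at h1
    set κ0 := κ (om w x z) with hκ0
    have hn : 0 < ‖κ0‖ ^ 2 := by positivity
    have hQ : (g0 w x z).re - 1 / 2 ≤ (κ0⁻¹).re := by
      rw [Complex.inv_re, Complex.normSq_eq_norm_sq, le_div_iff₀ hn]
      exact h1
    rw [g0_re_eq z hs] at hQ
    have hsum : w i * ((hk (x i) z).re - 1 / 2) + w j * ((hk (x j) z).re - 1 / 2) ≤
        ∑ k, w k * ((hk (x k) z).re - 1 / 2) := by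
      rw [← Finset.sum_pair (f := fun k => w k * ((hk (x k) z).re - 1 / 2)) hij]
      refine Finset.sum_le_sum_of_subset_of_nonneg (Finset.subset_univ _) fun k _ _ => ?_
      exact mul_nonneg (hw' k) (by linarith [hr k])
    have halg := hAlg (hk (x i) z - 1 / 2) (hk (x j) z - 1 / 2)
      (κ0⁻¹ - (w i * (hk (x i) z - 1 / 2) + w j * (hk (x j) z - 1 / 2))) (w i) (w j) hi hj
      (by
        have := hr i
        simp only [Complex.sub_re]
        norm_num
        linarith) (by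
        have := hr j
        simp only [Complex.sub_re]
        norm_num
        linarith) (by
        have e1 : (κ0⁻¹ - ((w i : ℂ) * (hk (x i) z - 1 / 2) + w j * (hk (x j) z - 1 / 2))).re =
          (κ0⁻¹).re - (w i * ((hk (x i) z).re - 1 / 2) + w j * ((hk (x j) z).re - 1 / 2)) := by
          simp only [Complex.sub_re, Complex.add_re, Complex.re_ofReal_mul]
          norm_num
        rw [e1]
        linarith) (by
        rw [add_sub_cancel]
        exact inv_ne_zero h0)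
    rw [add_sub_cancel] at halg
    have e2 : qf lam w x κ i j z = ((((lam / w i + lam / w j) / 2 : ℝ)) : ℂ) +
        (lam : ℂ) * ((hk (x i) z - 1 / 2) / w i + (hk (x j) z - 1 / 2) / w j -
          (hk (x i) z - 1 / 2 - (hk (x j) z - 1 / 2)) ^ 2 / κ0⁻¹) := by
      unfold qf
      rw [← hκ0]
      have hwi : (w i : ℂ) ≠ 0 := by exact_mod_cast hi.ne'
      have hwj : (w j : ℂ) ≠ 0 := by exact_mod_cast hj.ne'
      push_cast
      rw [div_inv_eq_mul]
      field_simp
      ring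
    rw [e2, Complex.add_re, Complex.ofReal_re, Complex.re_ofReal_mul]
    have := mul_nonneg hlam.le halg
    linarith

theorem qf_diff {lam : ℝ} {κ : ℂ → ℂ} (hκd : DifferentiableOn ℂ κ (ball 0 1))
    (hw : ∀ i, 0 ≤ w i) (hs : ∑ i, w i = 1) (hx : ∀ i, ‖x i‖ = 1) (i j : ι) :
    DifferentiableOn ℂ (qf lam w x κ i j) (ball 0 1) := by
  unfold qf
  have h1 := hk_diff (hx i)
  have h2 := hk_diff (hx j)
  have h3 : DifferentiableOn ℂ (fun z => κ (om w x z)) (ball 0 1) :=
    hκd.comp (om_diff hw hs hx) fun z hz => om_mem hw hs hx hz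
  exact ((h1.const_mul _).add (h2.const_mul _)).sub ((h3.mul ((h1.sub h2).pow 2)).const_mul _)

theorem qf_zero (lam : ℝ) (κ : ℂ → ℂ) (i j : ι) :
    qf lam w x κ i j 0 = ((lam / w i + lam / w j : ℝ) : ℂ) := by
  unfold qf
  simp only [hk_zero, sub_self]
  push_cast
  ring

end conv

end Pool.Agent.TH242.AC2
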