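import Mathlib
import Pool.Agent.TH242.AC2.V2
import Pool.Agent.H73R3.Hull

/-!
# Second variation: the functional on the hull
-/

set_option autoImplicit false

open Complex Metric Set
open scoped BigOperators

namespace Pool.Agent.TH242.AC2

open Pool.Agent.TH775.AC
open Pool.Agent.H713R2

/-- composition with `s/(1+s)` -/
noncomputable def ph (K : ℂ → ℂ) (s : ℂ) : ℂ := K (s / (1 + s))

theorem mob_ne {s : ℂ} (hs : s ∈ ball (0 : ℂ) (1 / 2)) : 1 + s ≠ 0 := by
  intro h
  have h1 : s = -1 := by linear_combination h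
  have h2 := mem_ball_zero_iff.1 hs
  rw [h1] at h2
  norm_num at h2

theorem mob_mem {s : ℂ} (hs : s ∈ ball (0 : ℂ) (1 / 2)) : s / (1 + s) ∈ ball (0 : ℂ) 1 := by
  have h0 := mob_ne hs
  have h1 := mem_ball_zero_iff.1 hs
  rw [mem_ball_zero_iff, norm_div, div_lt_one (norm_pos_iff.2 h0)]
  have h2 : ‖(1 : ℂ)‖ ≤ ‖1 + s‖ + ‖s‖ := by
    calc ‖(1 : ℂ)‖ = ‖(1 + s) - s‖ := by congr 1; ring
      _ ≤ _ := norm_sub_le _ _
  rw [norm_one] at h2
  linarith

theorem mob_deriv {s : ℂ} (hs : s ∈ ball (0 : ℂ) (1 / 2)) :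
    HasDerivAt (fun s : ℂ => s / (1 + s)) ((1 - s / (1 + s)) ^ 2) s := by
  have h0 := mob_ne hs
  have h1 : HasDerivAt (fun s : ℂ => 1 + s) 1 s := (hasDerivAt_id s).const_add 1
  have h2 : HasDerivAt (fun s : ℂ => s / (1 + s)) ((1 * (1 + s) - s * 1) / (1 + s) ^ 2) s :=
    (hasDerivAt_id' s).fun_div h1 h0
  have h3 : (1 - s / (1 + s)) ^ 2 = (1 * (1 + s) - s * 1) / (1 + s) ^ 2 := by
    rw [one_sub_div h0, div_pow]
    ring
  rw [h3]
  exact h2

theorem ph_deriv {K : ℂ → ℂ} (hK : DifferentiableOn ℂ K (ball 0 1)) {s : ℂ}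
    (hs : s ∈ ball (0 : ℂ) (1 / 2)) :
    HasDerivAt (ph K) (deriv K (s / (1 + s)) * (1 - s / (1 + s)) ^ 2) s := by
  have h1 : HasDerivAt K (deriv K (s / (1 + s))) (s / (1 + s)) :=
    (hK.differentiableAt (isOpen_ball.mem_nhds (mob_mem hs))).hasDerivAt
  exact h1.comp s (mob_deriv hs)

theorem ph_diff {K : ℂ → ℂ} (hK : DifferentiableOn ℂ K (ball 0 1)) :
    DifferentiableOn ℂ (ph K) (ball 0 (1 / 2)) := fun _ hs =>
  (ph_deriv hK hs).differentiableAt.differentiableWithinAt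

theorem ph_analytic {K : ℂ → ℂ} (hK : DifferentiableOn ℂ K (ball 0 1)) :
    AnalyticAt ℂ (ph K) 0 :=
  (ph_diff hK).analyticAt (ball_mem_nhds _ (by norm_num))

theorem tc_ph {K X : ℂ → ℂ} (hK : DifferentiableOn ℂ K (ball 0 1))
    (h : ∀ z ∈ ball (0 : ℂ) 1, deriv K z * (1 - z) ^ 2 = X z) (k : ℕ) :
    tc (ph X) k = (k + 1) * tc (ph K) (k + 1) := by
  rw [← tc_deriv]
  refine tc_congr_ball (R := 1 / 2) (by norm_num) ?_ k
  intro s hs
  rw [(ph_deriv hK hs).deriv, h _ (mob_mem hs)]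
  rfl

/-! ### continuity -/

theorem GS_continuous {N : ℕ} (i : ℕ) : Continuous fun c : Fin N → ℂ =>
    PowerSeries.coeff i (GS c) := by
  simp only [coeff_GS]
  by_cases h : 1 ≤ i ∧ i ≤ N
  · simp only [dif_pos h]
    exact continuous_apply _
  · simp only [dif_neg h]
    exact continuous_const

theorem GS_pow_continuous {N : ℕ} (k i : ℕ) : Continuous fun c : Fin N → ℂ =>
    PowerSeries.coeff i (GS c ^ k) := by
  induction k generalizing i with
  | zero =>
    simp only [pow_zero]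
    exact continuous_const
  | succ k ih =>
    simp only [pow_succ, PowerSeries.coeff_mul]
    exact continuous_finsetSum _ fun p _ => (ih p.1).mul (GS_continuous p.2)

theorem LF_continuous (φ : ℕ → ℂ) (N : ℕ) : Continuous fun c : Fin N → ℂ => LF φ N (GS c) := by
  unfold LF
  exact continuous_finsetSum _ fun k _ => continuous_const.mul (GS_pow_continuous k N)

theorem gam_continuous (N : ℕ) : Continuous (gam N) := by
  unfold gam
  fun_prop

theorem CN_compact (N : ℕ) : IsCompact (CN N) :=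
  Pool.Agent.H73R3.compact_hull ((isCompact_sphere _ _).image (gam_continuous N))

theorem gam_mem {N : ℕ} {x : ℂ} (hx : ‖x‖ = 1) : gam N x ∈ CN N :=
  subset_convexHull ℝ _ ⟨x, mem_sphere_zero_iff_norm.2 hx, rfl⟩

/-! ### the functional at special points -/

theorem LF_gam (hComp : S_COMP) {K : ℂ → ℂ} (hK : DifferentiableOn ℂ K (ball 0 1)) {N : ℕ}
    {x : ℂ} (hx : ‖x‖ = 1) :
    LF (tc (ph K)) N (GS (gam N x)) = x ^ N * tc K N := by
  have hd : DifferentiableOn ℂ (fun z => hk x z - 1) (ball 0 1) :=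
    (hk_diff hx).sub (differentiableOn_const 1)
  have hj : gam N x = jet N (fun z => hk x z - 1) := by
    funext j
    unfold jet gam
    rw [tc_sub (hk_diff hx) (differentiableOn_const 1), tc_const_succ, sub_zero, tc_hk hx]
  rw [hj, LF_eq hComp (ph_analytic hK) hd (by simp [hk_zero]), ← tc_dil hK hx]
  refine tc_congr_ball one_pos ?_ N
  intro z hz
  have h := hk_ne hx hz
  unfold ph hk
  congr 1
  rw [add_sub_cancel]
  field_simp
  ring

/-- jets of `1/(1-ω) - 1` belong to the hull and give the coefficient -/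
theorem omega_hull (hHull : S_HULL) (hComp : S_COMP) {K : ℂ → ℂ}
    (hK : DifferentiableOn ℂ K (ball 0 1)) {N : ℕ} {ω : ℂ → ℂ}
    (hω : DifferentiableOn ℂ ω (ball 0 1)) (hω2 : ∀ z ∈ ball (0 : ℂ) 1, ‖ω z‖ ≤ ‖z‖) :
    ∃ c ∈ CN N, LF (tc (ph K)) N (GS c) = tc (fun z => K (ω z)) N := by
  have hlt : ∀ z ∈ ball (0 : ℂ) 1, ‖ω z‖ < 1 := fun z hz =>
    (hω2 z hz).trans_lt (mem_ball_zero_iff.1 hz)
  have hne : ∀ z ∈ ball (0 : ℂ) 1, 1 - ω z ≠ 0 := by
    intro z hz h
    have := hlt z hz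
    rw [← sub_eq_zero.1 h] at this
    simp at this
  have h00 : ω 0 = 0 := by
    have := hω2 0 (mem_ball_self one_pos)
    simpa using this
  have hd : DifferentiableOn ℂ (fun z => 1 / (1 - ω z)) (ball 0 1) :=
    (differentiableOn_const 1).fun_div ((differentiableOn_const 1).fun_sub hω) hne
  have h1 := hHull N (fun z => 1 / (1 - ω z)) 1 one_pos hd (by simp [h00]) (fun z hz =>
    (re_gt_half (hlt z hz)).le)
  refine ⟨_, h1, ?_⟩
  have hj : (fun j : Fin N => tc (fun z => 1 / (1 - ω z)) ((j : ℕ) + 1) / ((1 : ℝ) : ℂ)) =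
      jet N (fun z => 1 / (1 - ω z) - 1) := by
    funext j
    unfold jet
    rw [tc_sub hd (differentiableOn_const 1), tc_const_succ, sub_zero]
    simp
  rw [hj, LF_eq hComp (ph_analytic hK) (hd.fun_sub (differentiableOn_const 1)) (by simp [h00])]
  refine tc_congr_ball one_pos ?_ N
  intro z hz
  have h := hne z hz
  unfold ph
  congr 1
  rw [add_sub_cancel]
  field_simp
  ring

/-! ### real variable lemmas -/

theorem deriv_nonpos_of_le {f : ℝ → ℝ} {f' : ℝ} (h : HasDerivAt f f' 0)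
    (hle : ∀ t ∈ Set.Icc (0 : ℝ) 1, f t ≤ f 0) : f' ≤ 0 := by
  have h1 := h.tendsto_slope_zero_right
  refine le_of_tendsto h1 ?_
  filter_upwards [Ioo_mem_nhdsGT (show (0 : ℝ) < 1 by norm_num)] with t ht
  rw [zero_add, smul_eq_mul]
  have h2 := hle t ⟨ht.1.le, ht.2.le⟩
  exact mul_nonpos_of_nonneg_of_nonpos (inv_nonneg.2 ht.1.le) (by linarith)

theorem second_nonpos {f g : ℝ → ℝ} {g' : ℝ} (h : ∀ t, HasDerivAt f (g t) t)
    (hg : HasDerivAt g g' 0) {τ : ℝ} (hτ : 0 < τ) (hle : ∀ t, |t| ≤ τ → f t ≤ f 0) : g' ≤ 0 := by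
  by_contra hcon
  push Not at hcon
  have hmax : IsLocalMax f 0 := by
    filter_upwards [ball_mem_nhds (0 : ℝ) hτ] with t ht
    have := mem_ball_zero_iff.1 ht
    rw [Real.norm_eq_abs] at this
    exact hle t this.le
  have hd : deriv f = g := by
    funext t
    exact (h t).deriv
  have hg0 : g 0 = 0 := by
    have := hmax.deriv_eq_zero
    rwa [hd] at this
  have hmin : IsLocalMin f 0 := by
    refine isLocalMin_of_deriv_deriv_pos ?_ ?_ (h 0).continuousAt
    · rw [hd, hg.deriv]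
      exact hcon
    · rw [hd, hg0]
  have hconst : f =ᶠ[nhds 0] fun _ => f 0 := by
    filter_upwards [hmax, hmin] with t h1 h2
    exact le_antisymm h1 h2
  have h2 : deriv f =ᶠ[nhds 0] deriv fun _ => f 0 := hconst.deriv
  rw [hd] at h2
  have h3 := h2.deriv_eq
  rw [hg.deriv] at h3
  simp at h3
  linarith

end Pool.Agent.TH242.AC2
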