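import Mathlib
import Pool.Agent.TH242.AC2.V3

/-!
# Second variation: the maximum argument
-/

set_option autoImplicit false

open Complex Metric Set
open scoped BigOperators

namespace Pool.Agent.TH242.AC2

open Pool.Agent.TH775.AC
open Pool.Agent.H713R2

/-- the functional to be maximised -/
noncomputable def Mf (φ : ℕ → ℂ) (n : ℕ) (e : ℂ) (ε : ℝ) (c : Fin (n + 1) → ℂ) : ℝ :=
  (e * LF φ (n + 1) (GS c)).re + ε * ‖c 0‖ ^ 2

theorem Mf_continuous (φ : ℕ → ℂ) (n : ℕ) (e : ℂ) (ε : ℝ) : Continuous (Mf φ n e ε) := by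
  unfold Mf
  have h := LF_continuous φ (n + 1)
  have h2 : Continuous fun c : Fin (n + 1) → ℂ => c 0 := continuous_apply _
  exact (Complex.continuous_re.comp (continuous_const.mul h)).add
    (continuous_const.mul (h2.norm.pow 2))

/-- first derivative of the coefficient functional along a line -/
noncomputable def D1 (φ : ℕ → ℂ) (N : ℕ) (c b : Fin N → ℂ) (t : ℝ) : ℂ :=
  ∑ k ∈ Finset.range (N + 1), φ k *
      PowerSeries.coeff N ((k : PowerSeries ℂ) *
        (GS c + PowerSeries.C (t : ℂ) * GS b) ^ (k - 1) * GS b)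

/-- second derivative of the coefficient functional along a line -/
noncomputable def D2 (φ : ℕ → ℂ) (N : ℕ) (c b : Fin N → ℂ) (t : ℝ) : ℂ :=
  ∑ k ∈ Finset.range (N + 1), φ k *
      PowerSeries.coeff N ((k : PowerSeries ℂ) * ((k - 1 : ℕ) : PowerSeries ℂ) *
        (GS c + PowerSeries.C (t : ℂ) * GS b) ^ (k - 2) * GS b ^ 2)

theorem norm_line (a b : ℂ) (t : ℝ) :
    ‖a + (t : ℂ) * b‖ ^ 2 = ‖a‖ ^ 2 + 2 * t * ((starRingEnd ℂ) a * b).re + t ^ 2 * ‖b‖ ^ 2 := by
  rw [← Complex.normSq_eq_norm_sq, ← Complex.normSq_eq_norm_sq, ← Complex.normSq_eq_norm_sq]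
  simp only [Complex.normSq_apply, Complex.add_re, Complex.add_im, Complex.mul_re,
    Complex.mul_im, Complex.ofReal_re, Complex.ofReal_im, Complex.conj_re, Complex.conj_im]
  ring

theorem Mf_line_eq (φ : ℕ → ℂ) (n : ℕ) (e : ℂ) (ε : ℝ) (c b : Fin (n + 1) → ℂ) (t : ℝ) :
    Mf φ n e ε (c + t • b) =
      (e * LF φ (n + 1) (GS c + PowerSeries.C (t : ℂ) * GS b)).re +
        ε * (‖c 0‖ ^ 2 + 2 * t * ((starRingEnd ℂ) (c 0) * b 0).re + t ^ 2 * ‖b 0‖ ^ 2) := by
  unfold Mf
  have h1 : GS (c + t • b) = GS c + PowerSeries.C (t : ℂ) * GS b := by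
    rw [← GS_smul, ← GS_add]
    congr 1
  have h2 : (c + t • b) 0 = c 0 + (t : ℂ) * b 0 := by
    simp [Complex.real_smul]
  rw [h1, h2, norm_line]

theorem Mf_deriv (hDer : S_DER) (φ : ℕ → ℂ) (n : ℕ) (e : ℂ) (ε : ℝ) (c b : Fin (n + 1) → ℂ)
    (t : ℝ) : HasDerivAt (fun t : ℝ => Mf φ n e ε (c + t • b))
      ((e * D1 φ (n + 1) c b t).re +
        ε * (2 * ((starRingEnd ℂ) (c 0) * b 0).re + 2 * t * ‖b 0‖ ^ 2)) t := by
  have h1 := (hDer φ (n + 1) (GS c) (GS b) t).1
  have h2 := (h1.const_mul e)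
  have h3 : HasDerivAt (fun t : ℝ => (e * LF φ (n + 1)
      (GS c + PowerSeries.C (t : ℂ) * GS b)).re) ((e * D1 φ (n + 1) c b t).re) t := by
    have h4 := Complex.reCLM.hasFDerivAt.comp_hasDerivAt t h2
    exact h4
  have h5 : HasDerivAt (fun t : ℝ => ε * (‖c 0‖ ^ 2 +
      2 * t * ((starRingEnd ℂ) (c 0) * b 0).re + t ^ 2 * ‖b 0‖ ^ 2))
      (ε * (2 * ((starRingEnd ℂ) (c 0) * b 0).re + 2 * t * ‖b 0‖ ^ 2)) t := by
    have e1 : HasDerivAt (fun t : ℝ => 2 * t * ((starRingEnd ℂ) (c 0) * b 0).re)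
        (2 * ((starRingEnd ℂ) (c 0) * b 0).re) t := by
      have := ((hasDerivAt_id t).const_mul 2).mul_const (((starRingEnd ℂ) (c 0) * b 0).re)
      simpa using this
    have e2 : HasDerivAt (fun t : ℝ => t ^ 2 * ‖b 0‖ ^ 2) (2 * t * ‖b 0‖ ^ 2) t := by
      have := (hasDerivAt_pow 2 t).mul_const (‖b 0‖ ^ 2)
      simpa using this
    exact ((e1.const_add _).add e2).const_mul ε
  have h6 := h3.add h5
  refine h6.congr_of_eventuallyEq (Filter.Eventually.of_forall fun s => ?_)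
  exact Mf_line_eq φ n e ε c b s

theorem Mf_deriv2 (hDer : S_DER) (φ : ℕ → ℂ) (n : ℕ) (e : ℂ) (ε : ℝ) (c b : Fin (n + 1) → ℂ)
    (t : ℝ) : HasDerivAt (fun t : ℝ => (e * D1 φ (n + 1) c b t).re +
        ε * (2 * ((starRingEnd ℂ) (c 0) * b 0).re + 2 * t * ‖b 0‖ ^ 2))
      ((e * D2 φ (n + 1) c b t).re + ε * (2 * ‖b 0‖ ^ 2)) t := by
  have h1 := (hDer φ (n + 1) (GS c) (GS b) t).2
  have h2 := (h1.const_mul e)
  have h3 : HasDerivAt (fun t : ℝ => (e * D1 φ (n + 1) c b t).re)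
      ((e * D2 φ (n + 1) c b t).re) t := by
    have h4 := Complex.reCLM.hasFDerivAt.comp_hasDerivAt t h2
    exact h4
  have h5 : HasDerivAt (fun t : ℝ => ε * (2 * ((starRingEnd ℂ) (c 0) * b 0).re +
      2 * t * ‖b 0‖ ^ 2)) (ε * (2 * ‖b 0‖ ^ 2)) t := by
    have e1 : HasDerivAt (fun t : ℝ => 2 * t * ‖b 0‖ ^ 2) (2 * ‖b 0‖ ^ 2) t := by
      have := ((hasDerivAt_id t).const_mul 2).mul_const (‖b 0‖ ^ 2)
      simpa using this
    exact (e1.const_add _).const_mul ε
  exact h3.add h5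

/-- the linear functional `E(b) = e [X^N] P * GS b` plus the perturbation term -/
noncomputable def Dl (P : PowerSeries ℂ) (n : ℕ) (e : ℂ) (ε : ℝ) (c0 : ℂ) :
    (Fin (n + 1) → ℂ) →ₗ[ℝ] ℝ where
  toFun b := (e * PowerSeries.coeff (n + 1) (P * GS b)).re +
    ε * (2 * ((starRingEnd ℂ) c0 * b 0).re)
  map_add' b b' := by
    rw [GS_add, mul_add, map_add, mul_add, Complex.add_re, Pi.add_apply, mul_add, Complex.add_re]
    ring
  map_smul' t b := by
    have h1 : GS (t • b) = PowerSeries.C (t : ℂ) * GS b := by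
      rw [← GS_smul]
      congr 1
    have h2 : P * GS (t • b) = PowerSeries.C (t : ℂ) * (P * GS b) := by
      rw [h1]; ring
    rw [h2, PowerSeries.coeff_C_mul, Pi.smul_apply, Complex.real_smul]
    rw [show e * ((t : ℂ) * PowerSeries.coeff (n + 1) (P * GS b)) =
      (t : ℂ) * (e * PowerSeries.coeff (n + 1) (P * GS b)) by ring,
      show (starRingEnd ℂ) c0 * ((t : ℂ) * b 0) = (t : ℂ) * ((starRingEnd ℂ) c0 * b 0) by ring,
      Complex.re_ofReal_mul, Complex.re_ofReal_mul]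
    simp only [RingHom.id_apply, smul_eq_mul]
    ring

/-- Data at a maximum point. -/
theorem main_bound (hHull : S_HULL) (hAlg : S_ALG) (hDer : S_DER) (hComp : S_COMP)
    {K X κ : ℂ → ℂ} {lam : ℝ} {n : ℕ} (hlam : 0 < lam)
    (hK : DifferentiableOn ℂ K (ball 0 1)) (hX : DifferentiableOn ℂ X (ball 0 1))
    (hκd : DifferentiableOn ℂ κ (ball 0 1))
    (h1 : ∀ z ∈ ball (0 : ℂ) 1, deriv K z * (1 - z) ^ 2 = X z)
    (h2 : ∀ z ∈ ball (0 : ℂ) 1, deriv X z * (1 - z) ^ 2 = lam * (X z * κ z))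
    (hκ : ∀ z ∈ ball (0 : ℂ) 1, ((1 / (1 - z)).re - 1 / 2) * ‖κ z‖ ^ 2 ≤ (κ z).re)
    {e : ℂ} (he : ‖e‖ = 1) {ε : ℝ} (hε : 0 < ε) {c : Fin (n + 1) → ℂ} (hc : c ∈ CN (n + 1)) :
    Mf (tc (ph K)) n e ε c ≤ ‖tc K (n + 1)‖ + ε := by
  classical
  obtain ⟨cs, hcs, hmax'⟩ := (CN_compact (n + 1)).exists_isMaxOn ⟨c, hc⟩
    (Mf_continuous (tc (ph K)) n e ε).continuousOn
  have hmax : ∀ d ∈ CN (n + 1), Mf (tc (ph K)) n e ε d ≤ Mf (tc (ph K)) n e ε cs := hmax'
  refine (hmax c hc).trans ?_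
  have hcs' := hcs
  unfold CN at hcs'
  obtain ⟨ι, hι, zz, w, hz, hai, hw0, hw1, hwz⟩ := eq_pos_convex_span_of_mem_convexHull hcs'
  have hx : ∀ i, ∃ x : ℂ, ‖x‖ = 1 ∧ gam (n + 1) x = zz i := by
    intro i
    obtain ⟨x, hx, hx2⟩ := hz ⟨i, rfl⟩
    exact ⟨x, mem_sphere_zero_iff_norm.1 hx, hx2⟩
  choose x hx1 hx2 using hx
  have hwz' : ∑ i, w i • gam (n + 1) (x i) = cs := by
    rw [← hwz]
    exact Finset.sum_congr rfl fun i _ => by rw [hx2 i]
  by_cases hall : ∃ i j, x i ≠ x j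
  swap
  · -- a single point
    push Not at hall
    have hne : Nonempty ι := by
      by_contra hcon
      rw [not_nonempty_iff] at hcon
      simp at hw1
    obtain ⟨i0⟩ := hne
    have h3 : cs = gam (n + 1) (x i0) := by
      rw [← hwz']
      have : ∀ i ∈ Finset.univ, w i • gam (n + 1) (x i) = w i • gam (n + 1) (x i0) := by
        intro i _
        rw [hall i i0]
      rw [Finset.sum_congr rfl this, ← Finset.sum_smul, hw1, one_smul]
    rw [h3]
    unfold Mf
    rw [LF_gam hComp hK (hx1 i0)]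
    have h4 : ‖gam (n + 1) (x i0) 0‖ = 1 := by
      unfold gam
      simp [hx1 i0]
    rw [h4]
    have h5 : (e * (x i0 ^ (n + 1) * tc K (n + 1))).re ≤ ‖tc K (n + 1)‖ := by
      refine (Complex.re_le_norm _).trans ?_
      rw [norm_mul, norm_mul, norm_pow, hx1 i0, he]
      simp
    linarith
  exfalso
  obtain ⟨i, j, hij⟩ := hall
  have hij' : i ≠ j := fun h => hij (by rw [h])
  have hw' : ∀ i, 0 ≤ w i := fun i => (hw0 i).le
  -- functions
  set s : ℂ → ℂ := fun z => g0 w x z - 1 with hs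
  have hsd : DifferentiableOn ℂ s (ball 0 1) := (g0_diff hx1).fun_sub (differentiableOn_const 1)
  have hs0 : s 0 = 0 := by
    simp only [hs, g0_zero hw1, sub_self]
  have hjet : jet (n + 1) s = cs := by
    rw [hs, jet_g0 hx1, hwz']
  have hmob : ∀ z ∈ ball (0 : ℂ) 1, s z / (1 + s z) = om w x z := by
    intro z hz
    have h : g0 w x z ≠ 0 := by
      intro h
      have := g0_re hw' hw1 hx1 hz
      rw [h] at this
      norm_num at this
    simp only [hs, om, add_sub_cancel]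
    field_simp
  set X2 : ℂ → ℂ := fun z => (lam : ℂ) * (X z * κ z) with hX2
  have hX2d : DifferentiableOn ℂ X2 (ball 0 1) := (hX.mul hκd).const_mul _
  have t1 : ∀ k, tc (ph X) k = (k + 1) * tc (ph K) (k + 1) := tc_ph hK h1
  have t2 : ∀ k, tc (ph X2) k = (k + 1) * tc (ph X) (k + 1) := tc_ph hX h2
  set P : PowerSeries ℂ := TS (fun z => ph X (s z)) with hP
  set D := Dl P n e ε (cs 0) with hD
  have hDapp : ∀ b, D b = (e * PowerSeries.coeff (n + 1) (P * GS b)).re +
    ε * (2 * ((starRingEnd ℂ) (cs 0) * b 0).re) := fun b => rfl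
  have hD1 : ∀ b : Fin (n + 1) → ℂ, D1 (tc (ph K)) (n + 1) cs b 0 =
      PowerSeries.coeff (n + 1) (P * GS b) := by
    intro b
    have := D1_eq (N := n + 1) hComp (ph_analytic hX) hsd hs0 t1 (GS b) (X_dvd_GS b)
    rw [hjet] at this
    unfold D1
    rw [hP, ← this]
    simp
  have hD2 : ∀ b : Fin (n + 1) → ℂ, D2 (tc (ph K)) (n + 1) cs b 0 =
      PowerSeries.coeff (n + 1) (TS (fun z => ph X2 (s z)) * GS b ^ 2) := by
    intro b
    have := D2_eq (n := n) hComp (ph_analytic hX2d) hsd hs0 t1 t2 (GS b) (X_dvd_GS b)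
    rw [hjet] at this
    unfold D2
    rw [← this]
    simp
  -- first order condition
  have hfirst : ∀ d ∈ CN (n + 1), D (d - cs) ≤ 0 := by
    intro d hd
    have h3 := Mf_deriv hDer (tc (ph K)) n e ε cs (d - cs) 0
    rw [hD1] at h3
    have h4 := deriv_nonpos_of_le h3 ?_
    · rw [hDapp]
      simpa using h4
    · intro t ht
      simp only [zero_smul, add_zero]
      refine hmax _ ?_
      have : cs + t • (d - cs) = (1 - t) • cs + t • d := by
        rw [smul_sub, sub_smul, one_smul]; abel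
      rw [this]
      exact (convex_convexHull ℝ _) hcs hd (by linarith [ht.2]) ht.1 (by ring)
  have hle : ∀ d ∈ CN (n + 1), D d ≤ D cs := by
    intro d hd
    have := hfirst d hd
    rw [map_sub] at this
    linarith
  have heq : ∀ i, D (gam (n + 1) (x i)) = D cs := by
    have h3 : ∑ i, w i * (D cs - D (gam (n + 1) (x i))) = 0 := by
      have h4 : D cs = ∑ i, w i * D (gam (n + 1) (x i)) := by
        conv_lhs => rw [← hwz']
        rw [map_sum]
        refine Finset.sum_congr rfl fun i _ => ?_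
        rw [map_smul, smul_eq_mul]
      simp only [mul_sub, Finset.sum_sub_distrib]
      rw [← Finset.sum_mul, hw1, one_mul, ← h4, sub_self]
    intro i
    have h5 := (Finset.sum_eq_zero_iff_of_nonneg (fun i _ => mul_nonneg (hw' i)
      (sub_nonneg.2 (hle _ (gam_mem (hx1 i)))))).1 h3 i (Finset.mem_univ i)
    rcases mul_eq_zero.1 h5 with h6 | h6
    · exact absurd h6 (hw0 i).ne'
    · linarith
  -- second order condition
  set b : Fin (n + 1) → ℂ := gam (n + 1) (x i) - gam (n + 1) (x j) with hb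
  set τ : ℝ := min (w i) (w j) with hτ
  have hτ0 : 0 < τ := lt_min (hw0 i) (hw0 j)
  have hmem : ∀ t : ℝ, |t| ≤ τ → cs + t • b ∈ CN (n + 1) := by
    intro t ht
    have hti := (abs_le.1 ht)
    have hmi : τ ≤ w i := min_le_left _ _
    have hmj : τ ≤ w j := min_le_right _ _
    set w' : ι → ℝ := fun k => w k + (if k = i then t else 0) - (if k = j then t else 0) with hw'd
    have e1 : cs + t • b = ∑ k, w' k • gam (n + 1) (x k) := by
      rw [← hwz', hb]
      simp only [hw'd, sub_smul, add_smul, Finset.sum_sub_distrib, Finset.sum_add_distrib,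
        ite_smul, zero_smul, Finset.sum_ite_eq', Finset.mem_univ, if_true]
      rw [smul_sub]
      abel
    rw [e1]
    refine (convex_convexHull ℝ _).sum_mem ?_ ?_ fun k _ => gam_mem (hx1 k)
    · intro k _
      simp only [hw'd]
      by_cases hki : k = i
      · subst hki
        rw [if_pos rfl, if_neg hij']
        linarith
      · by_cases hkj : k = j
        · subst hkj
          rw [if_pos rfl, if_neg hki]
          linarith
        · rw [if_neg hki, if_neg hkj]
          linarith [hw' k]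
    · simp only [hw'd, Finset.sum_sub_distrib, Finset.sum_add_distrib, Finset.sum_ite_eq',
        Finset.mem_univ, if_true, hw1]
      ring
  have hsecond := second_nonpos (Mf_deriv hDer (tc (ph K)) n e ε cs b)
    (Mf_deriv2 hDer (tc (ph K)) n e ε cs b 0) hτ0 (by
      intro t ht
      simp only [zero_smul, add_zero]
      exact hmax _ (hmem t ht))
  rw [hD2] at hsecond
  -- the function q
  set a : ℝ := lam / w i + lam / w j with ha
  have ha0 : 0 < a := add_pos (div_pos hlam (hw0 i)) (div_pos hlam (hw0 j))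
  have hq := hHull (n + 1) (qf lam w x κ i j) a ha0 (qf_diff hκd hw' hw1 hx1 i j)
    (qf_zero lam κ i j) (fun z hz => qf_re hAlg hlam hκ hw0 hw1 hx1 hij' hz)
  set η : ℂ → ℂ := fun z => hk (x i) z - hk (x j) z with hη
  set ψ : ℂ → ℂ := fun z => (lam : ℂ) * (κ (om w x z) * η z ^ 2) with hψ
  have hηd : DifferentiableOn ℂ η (ball 0 1) := (hk_diff (hx1 i)).fun_sub (hk_diff (hx1 j))
  have hκo : DifferentiableOn ℂ (fun z => κ (om w x z)) (ball 0 1) :=
    hκd.comp (om_diff hw' hw1 hx1) fun z hz => om_mem hw' hw1 hx1 hz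
  have hψd : DifferentiableOn ℂ ψ (ball 0 1) := (hκo.mul (hηd.pow 2)).const_mul _
  have hη0 : η 0 = 0 := by simp [hη, hk_zero]
  have hψ0 : ψ 0 = 0 := by simp [hψ, hη0]
  have hjη : jet (n + 1) η = b := by
    funext k
    unfold jet
    rw [hη, tc_sub (hk_diff (hx1 i)) (hk_diff (hx1 j)), tc_hk (hx1 i), tc_hk (hx1 j)]
    rfl
  set v : Fin (n + 1) → ℂ := jet (n + 1) ψ with hv
  have hvq : v = (lam / w i) • gam (n + 1) (x i) + (lam / w j) • gam (n + 1) (x j) -
      a • (fun k : Fin (n + 1) => tc (qf lam w x κ i j) ((k : ℕ) + 1) / (a : ℂ)) := by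
    funext k
    have e0 : qf lam w x κ i j = fun z => (((lam / w i : ℝ) : ℂ) * hk (x i) z +
        ((lam / w j : ℝ) : ℂ) * hk (x j) z) - ψ z := rfl
    have e1 : tc (qf lam w x κ i j) ((k : ℕ) + 1) = ((lam / w i : ℝ) : ℂ) * x i ^ ((k : ℕ) + 1) +
        ((lam / w j : ℝ) : ℂ) * x j ^ ((k : ℕ) + 1) - tc ψ ((k : ℕ) + 1) := by
      rw [e0, tc_sub (((hk_diff (hx1 i)).const_mul _).fun_add ((hk_diff (hx1 j)).const_mul _)) hψd,
        tc_add ((hk_diff (hx1 i)).const_mul _) ((hk_diff (hx1 j)).const_mul _),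
        tc_const_mul _ (hk_diff (hx1 i)), tc_const_mul _ (hk_diff (hx1 j)), tc_hk (hx1 i),
        tc_hk (hx1 j)]
    have ha1 : (a : ℂ) ≠ 0 := by exact_mod_cast ha0.ne'
    simp only [Pi.sub_apply, Pi.add_apply, Pi.smul_apply, Complex.real_smul]
    rw [e1, mul_div_cancel₀ _ ha1]
    simp only [hv, jet, gam]
    ring
  have hDv : 0 ≤ D v := by
    rw [hvq, map_sub, map_add, map_smul, map_smul, map_smul, heq i, heq j]
    simp only [smul_eq_mul]
    have h3 := mul_le_mul_of_nonneg_left (hle _ hq) ha0.le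
    have h4 : lam / w i * D cs + lam / w j * D cs = a * D cs := by rw [ha]; ring
    rw [h4]
    linarith
  -- identification of the second derivative
  have hser : PowerSeries.coeff (n + 1) (TS (fun z => ph X2 (s z)) * GS b ^ 2) =
      PowerSeries.coeff (n + 1) (P * GS v) := by
    have e1 : TS (fun z => ph X2 (s z)) * TS η ^ 2 = P * TS ψ := by
      have hXo : DifferentiableOn ℂ (fun z => X (om w x z)) (ball 0 1) :=
        hX.comp (om_diff hw' hw1 hx1) fun z hz => om_mem hw' hw1 hx1 hz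
      have hX2o : DifferentiableOn ℂ (fun z => X2 (om w x z)) (ball 0 1) :=
        hX2d.comp (om_diff hw' hw1 hx1) fun z hz => om_mem hw' hw1 hx1 hz
      have f1 : TS (fun z => ph X2 (s z)) = TS (fun z => X2 (om w x z)) := by
        ext k
        rw [coeff_TS, coeff_TS]
        refine tc_congr_ball one_pos (fun z hz => ?_) k
        unfold ph
        rw [hmob z hz]
      have f2 : P = TS (fun z => X (om w x z)) := by
        ext k
        rw [hP, coeff_TS, coeff_TS]
        refine tc_congr_ball one_pos (fun z hz => ?_) k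
        unfold ph
        rw [hmob z hz]
      rw [f1, f2, pow_two, ← TS_mul hηd hηd, ← TS_mul hX2o (hηd.fun_mul hηd), ← TS_mul hXo hψd]
      congr 1
      funext z
      simp only [hX2, hψ]
      ring
    have e2 : (PowerSeries.X : PowerSeries ℂ) ^ (n + 1 + 1) ∣
        TS (fun z => ph X2 (s z)) * TS η ^ 2 - TS (fun z => ph X2 (s z)) * GS b ^ 2 := by
      rw [← mul_sub]
      refine Dvd.dvd.mul_left ?_ _
      have := TS_GS (N := n + 1) hη0
      rw [hjη] at this
      exact dvd_pow_congr this 2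
    have e3 : (PowerSeries.X : PowerSeries ℂ) ^ (n + 1 + 1) ∣ P * TS ψ - P * GS v := by
      rw [← mul_sub]
      exact (TS_GS (N := n + 1) hψ0).mul_left _
    rw [← coeff_eq_of_dvd e2 (Nat.lt_succ_self _), e1, coeff_eq_of_dvd e3 (Nat.lt_succ_self _)]
  rw [hser] at hsecond
  -- the first coefficient of psi vanishes
  have hv0 : v 0 = 0 := by
    simp only [hv, jet, Fin.val_zero, zero_add]
    have e1 : HasDerivAt ψ 0 0 := by
      have f1 : HasDerivAt η (deriv η 0) 0 :=
        (hηd.differentiableAt (ball_mem_nhds _ one_pos)).hasDerivAt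
      have f2 : HasDerivAt (fun z => κ (om w x z)) (deriv (fun z => κ (om w x z)) 0) 0 :=
        (hκo.differentiableAt (ball_mem_nhds _ one_pos)).hasDerivAt
      have f3 : HasDerivAt ψ ((lam : ℂ) * (deriv (fun z => κ (om w x z)) 0 * η 0 ^ 2 +
          κ (om w x 0) * (((2 : ℕ) : ℂ) * η 0 ^ (2 - 1) * deriv η 0))) 0 :=
        (f2.fun_mul (f1.fun_pow 2)).const_mul (lam : ℂ)
      rw [hη0] at f3
      have f4 : (lam : ℂ) * (deriv (fun z => κ (om w x z)) 0 * (0 : ℂ) ^ 2 +
          κ (om w x 0) * (((2 : ℕ) : ℂ) * (0 : ℂ) ^ (2 - 1) * deriv η 0)) = 0 := by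
        norm_num
      rw [f4] at f3
      exact f3
    unfold tc
    simp [iteratedDeriv_one, e1.deriv]
  rw [hDapp, hv0] at hDv
  have hb0 : 0 < ‖b 0‖ := by
    rw [norm_pos_iff]
    simp only [hb, Pi.sub_apply, gam, Fin.val_zero, zero_add, pow_one]
    exact sub_ne_zero.2 hij
  have hpos : 0 < ε * (2 * ‖b 0‖ ^ 2) := by positivity
  simp only [mul_zero, Complex.zero_re, add_zero] at hDv
  linarith

theorem v_of (hHull : S_HULL) (hAlg : S_ALG) (hDer : S_DER) (hComp : S_COMP) : S_V := by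
  intro K X κ lam N hlam hN hK hX hκd h1 h2 hκ ω hω hω2
  obtain ⟨n, rfl⟩ : ∃ n, N = n + 1 := ⟨N - 1, by omega⟩
  obtain ⟨c, hc, hcF⟩ := omega_hull hHull hComp hK (N := n + 1) hω hω2
  rw [← hcF]
  refine le_of_forall_pos_le_add fun ε hε => ?_
  set F := LF (tc (ph K)) (n + 1) (GS c) with hF
  by_cases hF0 : F = 0
  · rw [hF0, norm_zero]
    positivity
  · have hn : ‖F‖ ≠ 0 := norm_ne_zero_iff.2 hF0
    set e : ℂ := (starRingEnd ℂ) F / ‖F‖ with he
    have he1 : ‖e‖ = 1 := by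
      rw [he, norm_div, RCLike.norm_conj, Complex.norm_real, norm_norm, div_self hn]
    have he2 : e * F = ‖F‖ := by
      have h3 : (starRingEnd ℂ) F * F = ((‖F‖ : ℝ) : ℂ) ^ 2 := by
        rw [mul_comm, Complex.mul_conj, Complex.normSq_eq_norm_sq]
        push_cast
        rfl
      have hn' : ((‖F‖ : ℝ) : ℂ) ≠ 0 := by exact_mod_cast hn
      rw [he, div_mul_eq_mul_div, h3]
      field_simp
    have h3 := main_bound hHull hAlg hDer hComp hlam hK hX hκd h1 h2 hκ he1 hε hc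
    unfold Mf at h3
    rw [← hF, he2, Complex.ofReal_re] at h3
    have h4 : 0 ≤ ε * ‖c 0‖ ^ 2 := by positivity
    linarith

end Pool.Agent.TH242.AC2

namespace Pool.Agent.TH775.AC

theorem v_of (hHull : S_HULL) (hAlg : S_ALG) (hDer : S_DER) (hComp : S_COMP) : S_V :=
  Pool.Agent.TH242.AC2.v_of hHull hAlg hDer hComp

end Pool.Agent.TH775.AC
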