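import Mathlib
import Pool.Agent.TH775.AC.Stmts
import Pool.Agent.TH242.AC.Bdry

set_option autoImplicit false

open Complex Metric Set Filter Topology

namespace Pool.Agent.TH242.AC2

open Pool.Agent.TH242.AC

theorem y_ex : Pool.Agent.TH775.AC.S_Y := by
  intro α h0 h1
  have hβ : 1 < 1 / α := by rw [lt_div_iff₀ h0]; linarith
  have hα : (α : ℂ) ≠ 0 := by exact_mod_cast h0.ne'
  have hode : ∀ z ∈ ball (0 : ℂ) 1, (1 + z) * Rf (1 / α) z +
      (α : ℂ) * z * (1 - z) * deriv (Rf (1 / α)) z = 1 - z := by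
    intro z hz
    have hz' := mem_ball_zero_iff.1 hz
    have hz1 : z ≠ 1 := ne_one_of_norm_lt hz'
    have h2 : (1 : ℂ) - z ≠ 0 := sub_ne_zero.2 (Ne.symm hz1)
    have h3 := mul_deriv_Rf hβ hz'
    rw [DR_eq hz1, Qf] at h3
    have h4 : (α : ℂ) * z * (1 - z) * deriv (Rf (1 / α)) z =
        (α : ℂ) * (1 - z) * (z * deriv (Rf (1 / α)) z) := by ring
    rw [h4, h3]
    push_cast
    field_simp
    ring
  refine ⟨Rf (1 / α), Rf_differentiableOn hβ, Rf_zero, ?_, hode, fun z _ => Rf_conj _ z⟩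
  have hd := Rf_differentiableOn hβ
  have hd2 : DifferentiableOn ℂ (deriv (Rf (1 / α))) (ball 0 1) := hd.deriv isOpen_ball
  have hm : (0 : ℂ) ∈ ball (0 : ℂ) 1 := mem_ball_self one_pos
  have e1 : HasDerivAt (Rf (1 / α)) (deriv (Rf (1 / α)) 0) 0 :=
    (hd.differentiableAt (isOpen_ball.mem_nhds hm)).hasDerivAt
  have e2 : HasDerivAt (deriv (Rf (1 / α))) (deriv (deriv (Rf (1 / α))) 0) 0 :=
    (hd2.differentiableAt (isOpen_ball.mem_nhds hm)).hasDerivAt
  have e3 : HasDerivAt (fun z : ℂ => 1 + z) 1 0 := (hasDerivAt_id' (0 : ℂ)).const_add 1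
  have e4 : HasDerivAt (fun z : ℂ => 1 - z) (-1) 0 := by
    simpa using (hasDerivAt_id' (0 : ℂ)).const_sub 1
  have e5 : HasDerivAt (fun z : ℂ => (α : ℂ) * z) ((α : ℂ) * 1) 0 :=
    (hasDerivAt_id' (0 : ℂ)).const_mul (α : ℂ)
  have e6 := (e3.fun_mul e1).fun_add ((e5.fun_mul e4).fun_mul e2)
  have e7 : (fun z : ℂ => (1 + z) * Rf (1 / α) z +
      (α : ℂ) * z * (1 - z) * deriv (Rf (1 / α)) z) =ᶠ[𝓝 0] fun z => 1 - z := by
    filter_upwards [isOpen_ball.mem_nhds hm] with z hz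
    exact hode z hz
  have e8 := (e4.congr_of_eventuallyEq e7).unique e6
  rw [Rf_zero] at e8
  have e9 : (1 + (α : ℂ)) ≠ 0 := by
    have : (1 + α : ℝ) ≠ 0 := by positivity
    exact_mod_cast this
  rw [eq_div_iff e9]
  linear_combination -e8

end Pool.Agent.TH242.AC2

namespace Pool.Agent.TH775.AC

theorem y_exists : S_Y := Pool.Agent.TH242.AC2.y_ex

end Pool.Agent.TH775.AC
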